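import Pool.Agent.Lib.MP_e326dc_an.C.Corr

/-!
# MP_e326dc_an, part C: anti-uniformity
-/

set_option linter.unusedSectionVars false

namespace MP_e326dc_an

open Filter Topology MeasureTheory
open scoped ComplexConjugate ENNReal

variable {A Ω : Type} [AddCommGroup A] [MeasurableSpace Ω] {μ : Measure Ω} [IsProbabilityMeasure μ]

/-- the average as a function -/
theorem avg_uvec_coe (T : MPAction A Ω μ) {l : List ((ℤ → A) × (Ω → ℂ))} (hl : GoodL l)
    (s : Finset ℤ) (c : ℤ → ℂ) :
    (avg s (fun n => c n • uvec T l n)).fn =ᵐ[μ]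
      fun x => avg s (fun n => c n * uprod T l n x) := by
  have h1 : ∀ t : Finset ℤ, (∑ n ∈ t, c n • uvec T l n).fn =ᵐ[μ]
      fun x => ∑ n ∈ t, c n * uprod T l n x := by
    intro t
    classical
    induction t using Finset.induction_on with
    | empty =>
      simp only [Finset.sum_empty]
      exact HL.fn_zero
    | insert a t ha ih =>
      rw [Finset.sum_insert ha]
      filter_upwards [HL.fn_add (c a • uvec T l a) (∑ n ∈ t, c n • uvec T l n), ih,
        HL.fn_smul (c a) (uvec T l a), uvec_coe T hl a] with x e1 e2 e3 e4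
      rw [e1, e2, e3, e4, Finset.sum_insert ha]
  have h2 : avg s (fun n => c n • uvec T l n) =
      (((s.card : ℝ)⁻¹ : ℝ) : ℂ) • (∑ n ∈ s, c n • uvec T l n) := by
    rw [avg, Complex.coe_smul]
  rw [h2]
  filter_upwards [HL.fn_smul (((s.card : ℝ)⁻¹ : ℝ) : ℂ) (∑ n ∈ s, c n • uvec T l n), h1 s]
    with x e1 e2
  rw [e1, e2, avg, Complex.real_smul]

theorem normSq_avg_uvec (T : MPAction A Ω μ) {l : List ((ℤ → A) × (Ω → ℂ))} (hl : GoodL l)
    (s : Finset ℤ) (c : ℤ → ℂ) :
    ‖avg s (fun n => c n • uvec T l n)‖ ^ 2 = ∫ x, ‖avg s (fun n => c n * uprod T l n x)‖ ^ 2 ∂μ :=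
  normSq_eq_of_ae (avg_uvec_coe T hl s c)

theorem avg_uprod_measurable (T : MPAction A Ω μ) {l : List ((ℤ → A) × (Ω → ℂ))} (hl : GoodL l)
    (s : Finset ℤ) (c : ℤ → ℂ) : Measurable fun x => avg s (fun n => c n * uprod T l n x) := by
  simp only [avg]
  exact (Finset.measurable_fun_sum _ fun n _ => (uprod_measurable T hl n).const_mul _).const_smul _

/-- factors which are dominated pointwise -/
theorem norm_avg_uvec_le_of (T : MPAction A Ω μ) {l l' : List ((ℤ → A) × (Ω → ℂ))} (hl : GoodL l)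
    (hl' : GoodL l') (g : Ω → ℂ) (hg : ∀ x, ‖g x‖ ≤ 1)
    (h : ∀ n x, uprod T l n x = g x * uprod T l' n x) (s : Finset ℤ) (c : ℤ → ℂ) :
    ‖avg s (fun n => c n • uvec T l n)‖ ≤ ‖avg s (fun n => c n • uvec T l' n)‖ := by
  have h1 := normSq_avg_uvec T hl s c
  have h2 := normSq_avg_uvec T hl' s c
  have h3 : ∫ x, ‖avg s (fun n => c n * uprod T l n x)‖ ^ 2 ∂μ ≤
      ∫ x, ‖avg s (fun n => c n * uprod T l' n x)‖ ^ 2 ∂μ := by
    refine integral_mono_of_nonneg (Filter.Eventually.of_forall fun x => by positivity) ?_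
      (Filter.Eventually.of_forall fun x => ?_)
    · -- integrability of a bounded function
      have hb : ∀ x, ‖avg s (fun n => c n * uprod T l' n x)‖ ≤ avg s (fun n => ‖c n‖) := by
        intro x
        refine (norm_avg_le _ _).trans (avg_le_avg fun n _ => ?_)
        rw [norm_mul]
        exact mul_le_of_le_one_right (norm_nonneg _) (norm_uprod_le T hl' n x)
      refine Integrable.of_bound (C := (avg s (fun n => ‖c n‖)) ^ 2)
        ((avg_uprod_measurable T hl' s c).norm.pow_const 2).aestronglyMeasurable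
        (Filter.Eventually.of_forall fun x => ?_)
      rw [norm_pow, norm_norm]
      exact pow_le_pow_left₀ (norm_nonneg _) (hb x) 2
    · have e : avg s (fun n => c n * uprod T l n x) = g x * avg s (fun n => c n * uprod T l' n x) := by
        simp only [avg, Complex.real_smul, Finset.mul_sum]
        refine Finset.sum_congr rfl fun n _ => ?_
        rw [h n x]; ring
      simp only
      rw [e, norm_mul]
      refine pow_le_pow_left₀ (by positivity) ?_ 2
      exact mul_le_of_le_one_left (norm_nonneg _) (hg x)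
  rw [← h1, ← h2] at h3
  exact (sq_le_sq₀ (norm_nonneg _) (norm_nonneg _)).1 h3

/-- anti-uniformity of order `s` for the family of exponents `F` -/
def AUF (T : MPAction A Ω μ) (s : ℕ) (F : List (ℤ → A)) : Prop :=
  ∀ l : List ((ℤ → A) × (Ω → ℂ)), GoodL l → l.map Prod.fst = F →
    ∀ (M : ℕ → ℤ) (L : ℕ → ℕ), Tendsto L atTop atTop → ∀ c : ℤ → ℂ, (∀ n, ‖c n‖ ≤ 1) →
      hlim (fun j => ‖avg (win (M j) (L j)) (fun n => c n • uvec T l n)‖) ≤ nrm M L s c

section
variable (T : MPAction A Ω μ)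

theorem norm_smul_uvec_le {l : List ((ℤ → A) × (Ω → ℂ))} (hl : GoodL l) {c : ℤ → ℂ}
    (hc : ∀ n, ‖c n‖ ≤ 1) (n : ℤ) : ‖c n • uvec T l n‖ ≤ 1 := by
  rw [norm_smul]
  have := mul_le_mul (hc n) (norm_uvec_le T hl n) (norm_nonneg _) zero_le_one
  simpa using this

theorem abs_norm_avg_le {l : List ((ℤ → A) × (Ω → ℂ))} (hl : GoodL l) {c : ℤ → ℂ}
    (hc : ∀ n, ‖c n‖ ≤ 1) (s : Finset ℤ) : |‖avg s (fun n => c n • uvec T l n)‖| ≤ 1 := by
  rw [abs_norm]
  exact norm_avg_le_const zero_le_one fun n _ => norm_smul_uvec_le T hl hc n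

theorem AUF.mono {s : ℕ} {F : List (ℤ → A)} (h : AUF T s F) : AUF T (s + 1) F := by
  intro l hl hF M L hL c hc
  exact (h l hl hF M L hL c hc).trans (nrm_le_succ hL s hc)

theorem AUF.nil : AUF T 0 [] := by
  intro l hl hF M L hL c hc
  have hl0 : l = [] := List.map_eq_nil_iff.1 hF
  subst hl0
  have h1 : ∀ s : Finset ℤ, ‖avg s (fun n => c n • uvec T [] n)‖ ≤ ‖avg s c‖ := by
    intro s
    have h := normSq_avg_uvec T (l := []) hl s c
    simp only [uprod_nil, mul_one, integral_const, probReal_univ, one_smul] at h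
    exact le_of_eq ((sq_eq_sq₀ (norm_nonneg _) (norm_nonneg _)).1 h)
  rw [nrm]
  refine hlim_mono (C := 1) ?_ ?_ (fun j => h1 _)
  · intro j; exact abs_norm_avg_le T hl hc _
  · intro j; rw [abs_norm]; exact norm_avg_le_const zero_le_one fun n _ => hc n

open Classical in
/-- the list without the constant exponents -/
noncomputable def ncL (l : List ((ℤ → A) × (Ω → ℂ))) : List ((ℤ → A) × (Ω → ℂ)) :=
  l.filter fun pf => ¬ PolyLE 0 pf.1

theorem ncL_fst (l : List ((ℤ → A) × (Ω → ℂ))) : (ncL l).map Prod.fst = noConst (l.map Prod.fst) := by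
  rw [ncL, noConst, List.filter_map]
  rfl

theorem GoodL.ncL {l : List ((ℤ → A) × (Ω → ℂ))} (hl : GoodL l) : GoodL (ncL l) :=
  fun pf hpf => hl pf (List.mem_of_mem_filter hpf)

/-- the factor of the constant exponents -/
theorem exists_const_factor {l : List ((ℤ → A) × (Ω → ℂ))} (hl : GoodL l) :
    ∃ g : Ω → ℂ, Measurable g ∧ (∀ x, ‖g x‖ ≤ 1) ∧
      ∀ n x, uprod T l n x = g x * uprod T (ncL l) n x := by
  classical
  induction l with
  | nil =>
    refine ⟨fun _ => 1, measurable_const, fun x => by simp, fun n x => ?_⟩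
    have : ncL ([] : List ((ℤ → A) × (Ω → ℂ))) = [] := rfl
    rw [this, uprod_nil, one_mul]
  | cons pf l ih =>
    obtain ⟨g, hg1, hg2, hg3⟩ := ih hl.tail
    by_cases h0 : PolyLE 0 pf.1
    · refine ⟨fun x => pf.2 (T.T (pf.1 0) x) * g x,
        ((hl pf (by simp)).1.comp (T.mp _).measurable).mul hg1, fun x => ?_, fun n x => ?_⟩
      · rw [norm_mul]
        have := mul_le_mul ((hl pf (by simp)).2 (T.T (pf.1 0) x)) (hg2 x) (norm_nonneg _) zero_le_one
        simpa using this
      · have e : ncL (pf :: l) = ncL l := by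
          rw [ncL, List.filter_cons_of_neg (by simpa using h0)]; rfl
        rw [e, uprod_cons, hg3 n x, h0 n 0]; ring
    · refine ⟨g, hg1, hg2, fun n x => ?_⟩
      have e : ncL (pf :: l) = pf :: ncL l := by
        rw [ncL, List.filter_cons_of_pos (by simpa using h0)]; rfl
      rw [e, uprod_cons, uprod_cons, hg3 n x]; ring

theorem AUF.const {s : ℕ} {F : List (ℤ → A)} (h : AUF T s (noConst F)) : AUF T s F := by
  intro l hl hF M L hL c hc
  obtain ⟨g, _, hg2, hg3⟩ := exists_const_factor T hl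
  refine le_trans ?_ (h (ncL l) hl.ncL (by rw [ncL_fst, hF]) M L hL c hc)
  refine hlim_mono (C := 1) ?_ ?_ (fun j => norm_avg_uvec_le_of T hl hl.ncL g hg2 hg3 _ c)
  · intro j; exact abs_norm_avg_le T hl hc _
  · intro j; exact abs_norm_avg_le T hl.ncL hc _

theorem AUF.step {s : ℕ} {F : List (ℤ → A)} (b : ℤ → A) (h : ∀ k : ℤ, AUF T s (petStep F b k)) :
    AUF T (s + 1) F := by
  intro l hl hF M L hL c hc
  refine le_nrm_succ s fun H hH => ?_
  have hv := vdc_norm M L hL (fun n => c n • uvec T l n) (norm_smul_uvec_le T hl hc) H hH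
  refine hv.trans (avg_le_avg fun ab _ => ?_)
  set k : ℤ := (ab.1 : ℤ) - ab.2 with hk
  have e : ∀ n : ℤ, inner ℂ (c (n + k) • uvec T l (n + k)) (c n • uvec T l n) =
      inner ℂ (oneL μ) (Dl c k n • uvec T (stepL l b k) n) := by
    intro n
    rw [inner_smul_left, inner_smul_right, inner_uvec T hl b k n, inner_smul_right, Dl]
    ring
  have hD := norm_Dl_le hc k
  have hg := hl.stepL b k
  refine le_trans ?_ (h k (stepL l b k) hg (by rw [stepL_fst, hF]) M L hL (Dl c k) hD)
  refine hlim_mono (C := 1) ?_ ?_ ?_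
  · intro j
    rw [abs_norm]
    refine norm_avg_le_const zero_le_one fun n _ => ?_
    refine (norm_inner_le_norm _ _).trans ?_
    have := mul_le_mul (norm_smul_uvec_le T hl hc (n + k)) (norm_smul_uvec_le T hl hc n)
      (norm_nonneg _) zero_le_one
    simpa using this
  · intro j; exact abs_norm_avg_le T hg hD _
  · intro j
    simp only [e]
    rw [← avg_inner_right]
    refine (norm_inner_le_norm _ _).trans ?_
    exact mul_le_of_le_one_left (norm_nonneg _) norm_oneL

/-- **Anti-uniformity.** The order depends only on the number and the degrees of the polynomials. -/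
theorem exists_AUF (D K : ℕ) : ∃ s, ∀ F : List (ℤ → A), F.length ≤ K → (∀ p ∈ F, PolyLE D p) →
    AUF T s F :=
  pet_principle (AUF T) (fun _ _ h => h.mono T) (AUF.nil T) (fun _ _ h => h.const T)
    (fun _ _ b _ _ h => AUF.step T b h) D K

/-- anti-uniformity for cube null sequences -/
theorem AUF.wtendsto {s : ℕ} {F : List (ℤ → A)} (h : AUF T s F) {l : List ((ℤ → A) × (Ω → ℂ))}
    (hl : GoodL l) (hF : l.map Prod.fst = F) {c : ℤ → ℂ} (hc : Bdd c)
    (hn : CubeNull (Fin (s + 1)) c) : WTendsto (fun n => c n • uvec T l n) 0 := by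
  obtain ⟨C, hC⟩ := hc
  -- reduce to |c| ≤ 1
  have main : ∀ c : ℤ → ℂ, (∀ n, ‖c n‖ ≤ 1) → CubeNull (Fin (s + 1)) c →
      WTendsto (fun n => c n • uvec T l n) 0 := by
    intro c hc hn
    by_contra hcon
    simp only [WTendsto, not_forall, not_exists] at hcon
    obtain ⟨ε, hε, hcon⟩ := hcon
    have hcon' : ∀ N : ℕ, ∃ (M : ℤ) (L : ℕ), N ≤ L ∧
        ε < ‖avg (win M L) (fun n => c n • uvec T l n)‖ := by
      intro N
      obtain ⟨M, L, hNL, hh⟩ := hcon N
      exact ⟨M, L, hNL, by simpa using hh⟩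
    choose M L hL hML using hcon'
    have hLt : Tendsto L atTop atTop := tendsto_atTop_mono hL tendsto_id
    have h1 := h l hl hF M L hLt c hc
    rw [nrm_eq_zero_of_cubeNull hLt s hc hn] at h1
    have h2 : ε ≤ hlim (fun j => ‖avg (win (M j) (L j)) (fun n => c n • uvec T l n)‖) :=
      ge_of_tendsto' (tendsto_hlim (fun j => abs_norm_avg_le T hl hc _)) (fun j => (hML j).le)
    linarith
  set C' : ℝ := max C 1 with hC'
  have hC'1 : 0 < C' := lt_of_lt_of_le one_pos (le_max_right _ _)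
  have hc1 : ∀ n, ‖((C'⁻¹ : ℝ) : ℂ) * c n‖ ≤ 1 := by
    intro n
    rw [norm_mul, Complex.norm_real, norm_inv, Real.norm_of_nonneg hC'1.le]
    rw [inv_mul_le_one₀ hC'1]
    exact (hC n).trans (le_max_left _ _)
  have hn1 : CubeNull (Fin (s + 1)) (fun n => ((C'⁻¹ : ℝ) : ℂ) * c n) := by
    intro ε hε
    set κ : ℝ := C'⁻¹ ^ (Fintype.card (Finset (Fin (s + 1)))) with hκ
    have hκ0 : 0 < κ := by rw [hκ]; positivity
    obtain ⟨N, hN⟩ := hn (ε / κ) (by positivity)
    refine ⟨N, fun M L hL => ?_⟩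
    have := hN M L hL
    have e : (fun v : Option (Fin (s + 1)) → ℤ => ∏ S : Finset (Fin (s + 1)),
        cconj S (((C'⁻¹ : ℝ) : ℂ) * c (expo (v none) (fun i => v (some i)) S))) =
        fun v => κ • ∏ S : Finset (Fin (s + 1)),
          cconj S (c (expo (v none) (fun i => v (some i)) S)) := by
      funext v
      have e1 : ∀ (S : Finset (Fin (s + 1))) (z : ℂ), cconj S (((C'⁻¹ : ℝ) : ℂ) * z) =
          ((C'⁻¹ : ℝ) : ℂ) * cconj S z := by
        intro S z
        rw [cconj_mul]
        congr 1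
        simp only [cconj]
        split_ifs
        · rfl
        · exact Complex.conj_ofReal _
      simp_rw [e1]
      rw [Finset.prod_mul_distrib, Finset.prod_const, Finset.card_univ, Complex.real_smul, hκ]
      norm_cast
    rw [e, sub_zero]
    have e2 : ∀ (s' : Finset (Option (Fin (s + 1)) → ℤ)) (f : (Option (Fin (s + 1)) → ℤ) → ℂ),
        avg s' (fun v => κ • f v) = κ • avg s' f := by
      intro s' f
      simp only [avg, ← Finset.smul_sum]
      rw [smul_comm]
    rw [e2, norm_smul, Real.norm_of_nonneg hκ0.le]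
    rw [sub_zero] at this
    calc κ * _ ≤ κ * (ε / κ) := mul_le_mul_of_nonneg_left this hκ0.le
      _ = ε := by field_simp
  have h1 := main _ hc1 hn1
  intro ε hε
  obtain ⟨N, hN⟩ := h1 (ε / C') (by positivity)
  refine ⟨N, fun M L hL => ?_⟩
  have h2 := hN M L hL
  rw [sub_zero] at h2 ⊢
  have e : avg (win M L) (fun n => (((C'⁻¹ : ℝ) : ℂ) * c n) • uvec T l n) =
      ((C'⁻¹ : ℝ) : ℂ) • avg (win M L) (fun n => c n • uvec T l n) := by
    simp only [avg, mul_smul, ← Finset.smul_sum]
    rw [smul_comm]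
  rw [e, norm_smul, Complex.norm_real, norm_inv, Real.norm_of_nonneg hC'1.le] at h2
  rw [inv_mul_le_iff₀ hC'1] at h2
  calc _ ≤ C' * (ε / C') := h2
    _ = ε := by field_simp

end

end MP_e326dc_an
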