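import Pool.Agent.Lib.MP_e326dc_an.C.Mean

/-!
# MP_e326dc_an, part C: averages over boxes as iterated averages
-/

namespace MP_e326dc_an

open Filter Topology
open scoped ComplexConjugate

section
variable {F : Type*} [AddCommGroup F] [Module ℝ F]

/-- change of variables in an average -/
theorem avg_bij {α β : Type*} {s : Finset α} {t : Finset β} (f : α → F) (g : β → F)
    (i : α → β) (j : β → α) (hi : ∀ a ∈ s, i a ∈ t) (hj : ∀ b ∈ t, j b ∈ s)
    (left : ∀ a ∈ s, j (i a) = a) (right : ∀ b ∈ t, i (j b) = b)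
    (h : ∀ a ∈ s, f a = g (i a)) : avg s f = avg t g := by
  have hc : s.card = t.card := Finset.card_nbij' i j hi hj left right
  rw [avg, avg, hc, Finset.sum_nbij' i j hi hj left right h]

theorem avg_pi_succ {α : Type*} {k : ℕ} (R : Finset α) (f : (Fin (k + 1) → α) → F) :
    avg (Fintype.piFinset fun _ : Fin (k + 1) => R) f =
      avg R (fun x0 => avg (Fintype.piFinset fun _ : Fin k => R) (fun x => f (Fin.cons x0 x))) := by
  rw [← avg_product R (Fintype.piFinset fun _ : Fin k => R) (fun p => f (Fin.cons p.1 p.2))]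
  refine avg_bij _ _ (fun x => (x 0, Fin.tail x)) (fun p => Fin.cons p.1 p.2) ?_ ?_ ?_ ?_ ?_
  · intro x hx
    rw [Fintype.mem_piFinset] at hx
    rw [Finset.mem_product, Fintype.mem_piFinset]
    exact ⟨hx 0, fun i => hx i.succ⟩
  · rintro ⟨x0, x⟩ hx
    rw [Finset.mem_product, Fintype.mem_piFinset] at hx
    rw [Fintype.mem_piFinset]
    intro i
    refine Fin.cases ?_ (fun i => ?_) i
    · simpa using hx.1
    · simpa using hx.2 i
  · intro x _; exact Fin.cons_self_tail x
  · rintro ⟨x0, x⟩ _; simp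
  · intro x _; simp only; rw [Fin.cons_self_tail]

/-- boxes in `ℤ^{Option ι}` -/
theorem avg_box_option {ι : Type*} [Fintype ι] [DecidableEq ι] (M : Option ι → ℤ)
    (L : Option ι → ℕ) (f : (Option ι → ℤ) → F) :
    avg (box M L) f = avg (win (M none) (L none)) (fun n =>
      avg (box (fun i => M (some i)) (fun i => L (some i)))
        (fun h => f (fun o => o.elim n h))) := by
  rw [← avg_product (win (M none) (L none)) (box (fun i => M (some i)) (fun i => L (some i)))
    (fun p => f (fun o => o.elim p.1 p.2))]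
  refine avg_bij _ _ (fun v => (v none, fun i => v (some i))) (fun p o => o.elim p.1 p.2)
    ?_ ?_ ?_ ?_ ?_
  · intro v hv
    simp only [box, win, Fintype.mem_piFinset, Finset.mem_product] at hv ⊢
    exact ⟨hv none, fun i => hv (some i)⟩
  · rintro ⟨n, h⟩ hv
    simp only [box, win, Fintype.mem_piFinset, Finset.mem_product] at hv ⊢
    rintro (_ | i)
    · exact hv.1
    · exact hv.2 i
  · intro v _; funext o; cases o <;> rfl
  · rintro ⟨n, h⟩ _; rfl
  · intro v _
    simp only
    congr 1
    funext o; cases o <;> rfl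

/-- boxes with corner `-b` and equal sides -/
theorem avg_box_neg {k : ℕ} (H : ℕ) (b : Fin k → ℕ) (f : (Fin k → ℤ) → F) :
    avg (box (fun i => -(b i : ℤ)) (fun _ => H)) f =
      avg (Fintype.piFinset fun _ : Fin k => Finset.range H) (fun a => f (fun i => (a i : ℤ) - b i)) := by
  symm
  refine avg_bij _ _ (fun a i => (a i : ℤ) - b i) (fun h i => (h i + b i).toNat) ?_ ?_ ?_ ?_ ?_
  · intro a ha
    simp only [box, Fintype.mem_piFinset, Finset.mem_range, Finset.mem_Ico] at ha ⊢
    intro i
    have := ha i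
    omega
  · intro h hh
    simp only [box, Fintype.mem_piFinset, Finset.mem_range, Finset.mem_Ico] at hh ⊢
    intro i
    have := hh i
    omega
  · intro a _; funext i; simp
  · intro h hh
    simp only [box, Fintype.mem_piFinset, Finset.mem_Ico] at hh
    funext i
    have := hh i
    simp only
    omega
  · intro a _; rfl

end

/-! ### the cubic product -/

/-- the cubic product -/
noncomputable def cubp {ι : Type*} [Fintype ι] (c : ℤ → ℂ) (h : ι → ℤ) (n : ℤ) : ℂ :=
  ∏ S : Finset ι, cconj S (c (expo n h S))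

/-- multiplicative derivative -/
noncomputable def Dl (c : ℤ → ℂ) (h : ℤ) : ℤ → ℂ := fun n => c n * conj (c (n + h))

theorem cconj_mul {ι : Type*} (S : Finset ι) (z w : ℂ) : cconj S (z * w) = cconj S z * cconj S w := by
  simp only [cconj]; split_ifs <;> simp

theorem norm_cconj {ι : Type*} (S : Finset ι) (z : ℂ) : ‖cconj S z‖ = ‖z‖ := by
  simp only [cconj]; split_ifs <;> simp

theorem cubp_zero (c : ℤ → ℂ) (h : Fin 0 → ℤ) (n : ℤ) : cubp c h n = c n := by
  have : (Finset.univ : Finset (Finset (Fin 0))) = {∅} := by decide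
  rw [cubp, this]
  simp [cconj, expo]

theorem norm_cubp_le {ι : Type*} [Fintype ι] {c : ℤ → ℂ} (hc : ∀ n, ‖c n‖ ≤ 1) (h : ι → ℤ) (n : ℤ) :
    ‖cubp c h n‖ ≤ 1 := by
  rw [cubp, norm_prod]
  exact Finset.prod_le_one (fun _ _ => norm_nonneg _) (fun S _ => by rw [norm_cconj]; exact hc _)

theorem norm_Dl_le {c : ℤ → ℂ} (hc : ∀ n, ‖c n‖ ≤ 1) (h n : ℤ) : ‖Dl c h n‖ ≤ 1 := by
  rw [Dl, norm_mul, RCLike.norm_conj]
  have := mul_le_mul (hc n) (hc (n + h)) (norm_nonneg _) zero_le_one
  simpa using this

theorem cubp_succ {k : ℕ} (c : ℤ → ℂ) (h0 : ℤ) (h : Fin k → ℤ) (n : ℤ) :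
    cubp c (Fin.cons h0 h : Fin (k + 1) → ℤ) n = cubp (Dl c h0) h n := by
  classical
  rw [cubp, cubp]
  have hu : (Finset.univ : Finset (Fin (k + 1))) =
      insert 0 ((Finset.univ : Finset (Fin k)).map (Fin.succEmb k)) := by
    rw [Fin.univ_succ, Finset.cons_eq_insert]; rfl
  have h0n : (0 : Fin (k + 1)) ∉ (Finset.univ : Finset (Fin k)).map (Fin.succEmb k) := by
    simp
  have e1 : (Finset.univ : Finset (Finset (Fin (k + 1)))) =
      (insert 0 ((Finset.univ : Finset (Fin k)).map (Fin.succEmb k))).powerset := by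
    rw [← hu, Finset.powerset_univ]
  rw [e1, Finset.prod_powerset_insert h0n, ← Finset.prod_mul_distrib]
  have e2 : ((Finset.univ : Finset (Fin k)).map (Fin.succEmb k)).powerset =
      (Finset.univ : Finset (Finset (Fin k))).map (Finset.mapEmbedding (Fin.succEmb k)).toEmbedding := by
    ext S
    simp only [Finset.mem_powerset, Finset.mem_map, Finset.mem_univ, true_and,
      RelEmbedding.coe_toEmbedding, Finset.mapEmbedding_apply]
    constructor
    · intro hS
      obtain ⟨S', _, hS'⟩ := Finset.subset_map_iff.1 hS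
      exact ⟨S', hS'.symm⟩
    · rintro ⟨S', rfl⟩
      exact Finset.map_subset_map.2 (Finset.subset_univ _)
  rw [e2, Finset.prod_map]
  refine Finset.prod_congr rfl fun S _ => ?_
  simp only [RelEmbedding.coe_toEmbedding, Finset.mapEmbedding_apply]
  have hS0 : (0 : Fin (k + 1)) ∉ S.map (Fin.succEmb k) := by simp
  have x1 : expo n (Fin.cons h0 h : Fin (k + 1) → ℤ) (S.map (Fin.succEmb k)) = expo n h S := by
    simp [expo]
  have x2 : expo n (Fin.cons h0 h : Fin (k + 1) → ℤ) (insert 0 (S.map (Fin.succEmb k))) =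
      expo n h S + h0 := by
    rw [expo, Finset.sum_insert hS0, expo]
    simp; ring
  rw [x1, x2, Dl, cconj_mul]
  congr 1
  · simp [cconj]
  · simp only [cconj, Finset.card_insert_of_notMem hS0, Finset.card_map, Nat.even_add_one]
    by_cases he : Even S.card <;> simp [he]

end MP_e326dc_an
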