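import Pool.Agent.Lib.MP_e326dc_an.Defs

/-!
# MP_e326dc_an, part C: the uniform PET induction principle
-/

namespace MP_e326dc_an

open Filter Topology

section poly
variable {A G : Type*} [AddCommGroup A] [AddCommGroup G]

theorem PolyLE.const (n : ℕ) (g : G) : PolyLE n (fun _ : A => g) := by
  induction n generalizing g with
  | zero => intro x y; rfl
  | succ n ih => intro h; simpa using ih (0 : G)

theorem PolyLE.add {n : ℕ} {p q : A → G} (hp : PolyLE n p) (hq : PolyLE n q) :
    PolyLE n (fun x => p x + q x) := by
  induction n generalizing p q with
  | zero => intro x y; simp only; rw [hp x y, hq x y]
  | succ n ih =>
    intro h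
    have := ih (hp h) (hq h)
    have e : (fun x => p (x + h) + q (x + h) - (p x + q x)) =
        fun x => (p (x + h) - p x) + (q (x + h) - q x) := by
      funext x; abel
    simp only at this ⊢
    rw [e]; exact this

theorem PolyLE.neg {n : ℕ} {p : A → G} (hp : PolyLE n p) :
    PolyLE n (fun x => - p x) := by
  induction n generalizing p with
  | zero => intro x y; simp only; rw [hp x y]
  | succ n ih =>
    intro h
    have := ih (hp h)
    have e : (fun x => - p (x + h) - (- p x)) =
        fun x => - (p (x + h) - p x) := by
      funext x; abel
    simp only at this ⊢
    rw [e]; exact this

theorem PolyLE.sub {n : ℕ} {p q : A → G} (hp : PolyLE n p) (hq : PolyLE n q) :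
    PolyLE n (fun x => p x - q x) := by
  have := hp.add hq.neg
  simpa [sub_eq_add_neg] using this

theorem PolyLE.succ {n : ℕ} {p : A → G} (hp : PolyLE n p) : PolyLE (n + 1) p := by
  induction n generalizing p with
  | zero =>
    intro h x y
    simp only
    rw [hp (x + h) x, hp (y + h) y]; simp
  | succ n ih => intro h; exact ih (hp h)

theorem PolyLE.mono {n m : ℕ} (hnm : n ≤ m) {p : A → G} (hp : PolyLE n p) : PolyLE m p := by
  induction hnm with
  | refl => exact hp
  | step _ ih => exact ih.succ

theorem PolyLE.shift_arg {n : ℕ} {p : A → G} (hp : PolyLE n p) (h : A) :
    PolyLE n (fun x => p (x + h)) := by
  induction n generalizing p with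
  | zero => intro x y; exact hp _ _
  | succ n ih =>
    intro k
    have := ih (hp k)
    have e : (fun x => p (x + k + h) - p (x + h)) =
        fun x => p (x + h + k) - p (x + h) := by
      funext x; rw [add_right_comm]
    rw [e]; exact this

theorem PolyLE.zero_fun (n : ℕ) : PolyLE n (fun _ : A => (0 : G)) := PolyLE.const n 0

end poly

section pet

variable {G : Type*} [AddCommGroup G]

/-- the family obtained from `F` by one van der Corput step with base `b` and shift `h` -/
def petStep (F : List (ℤ → G)) (b : ℤ → G) (h : ℤ) : List (ℤ → G) :=
  F.map (fun p n => p n - b n) ++ F.map (fun p n => p (n + h) - b n)

/-- `N f` bounds the number of classes of members of degree `f + 1` -/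
def HasTy (N : ℕ → ℕ) (F : List (ℤ → G)) : Prop :=
  ∃ R : ℕ → List (ℤ → G), (∀ f, (R f).length ≤ N f) ∧
    ∀ p ∈ F, PolyLE 0 p ∨ ∃ f, ∃ r ∈ R f, PolyLE (f + 1) p ∧ PolyLE f (fun n => p n - r n)

theorem HasTy.sub {N : ℕ → ℕ} {F F' : List (ℤ → G)} (h : HasTy N F) (hF : ∀ p ∈ F', p ∈ F) :
    HasTy N F' := by
  obtain ⟨R, h1, h2⟩ := h
  exact ⟨R, h1, fun p hp => h2 p (hF p hp)⟩

open Classical in
/-- the members of `F` which are not constant -/
noncomputable def noConst (F : List (ℤ → G)) : List (ℤ → G) := F.filter fun p => ¬ PolyLE 0 p

/-- The uniform PET principle for a property `P s F` of finite families of polynomial maps. -/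
theorem pet_aux (P : ℕ → List (ℤ → G) → Prop)
    (mono : ∀ s F, P s F → P (s + 1) F)
    (const : ∀ s F, P s (noConst F) → P s F)
    (step : ∀ s F, ∀ b ∈ F, (∀ p ∈ F, ¬ PolyLE 0 p) → (∀ h : ℤ, P s (petStep F b h)) → P (s + 1) F)
    (D : ℕ) : ∀ U : ℕ → ℕ, (∀ f < D, U f = 0) →
      (∀ K : ℕ, ∃ s, ∀ F : List (ℤ → G), F.length ≤ K → HasTy U F → P s F) →
      ∀ N : ℕ → ℕ, (∀ f, D ≤ f → N f = U f) →
      ∀ K : ℕ, ∃ s, ∀ F : List (ℤ → G), F.length ≤ K → HasTy N F → P s F := by
  have mono' : ∀ s t F, s ≤ t → P s F → P t F := by
    intro s t F hst h
    induction hst with
    | refl => exact h
    | step _ ih => exact mono _ _ ih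
  induction D with
  | zero =>
    intro U _ hU N hN K
    have : N = U := by funext f; exact hN f (Nat.zero_le _)
    rw [this]; exact hU K
  | succ D ihD =>
    intro U hU0 hU N hN K
    -- induction on N D
    have key : ∀ k : ℕ, ∀ N : ℕ → ℕ, (∀ f, D + 1 ≤ f → N f = U f) → N D = k →
        ∀ K : ℕ, ∃ s, ∀ F : List (ℤ → G), F.length ≤ K → HasTy N F → P s F := by
      intro k
      induction k with
      | zero =>
        intro N hN hk K
        refine ihD U (fun f hf => hU0 f (by omega)) hU N ?_ K
        intro f hf
        rcases Nat.lt_or_ge D f with h | h
        · exact hN f h
        · have : f = D := by omega
          subst this; rw [hk, hU0 f (by omega)]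
      | succ k ihk =>
        intro N hN hk K
        set U' : ℕ → ℕ := Function.update U D (k + 1) with hU'
        refine ihD U' ?_ ?_ N ?_ K
        · intro f hf
          rw [hU', Function.update_of_ne (by omega)]; exact hU0 f (by omega)
        · -- the main step
          intro K
          -- the two smaller types
          set N1 : ℕ → ℕ := Function.update U D k with hN1
          set N2 : ℕ → ℕ := Function.update (fun f => if f < D then 2 * K else U f) D k with hN2
          obtain ⟨s1, hs1⟩ := ihk N1 (by
            intro f hf; rw [hN1, Function.update_of_ne (by omega)]) (by rw [hN1]; simp) K
          obtain ⟨s2, hs2⟩ := ihk N2 (by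
            intro f hf; rw [hN2, Function.update_of_ne (by omega)]; simp [show ¬ f < D by omega])
            (by rw [hN2]; simp) (2 * K)
          refine ⟨max s1 (s2 + 1), ?_⟩
          intro F hFK hF
          classical
          -- remove constants
          refine const _ F ?_
          rw [noConst]
          set F' := F.filter (fun p => ¬ PolyLE 0 p) with hF'
          have hF'K : F'.length ≤ K := le_trans (List.length_filter_le _ _) hFK
          have hF'ty : HasTy U' F' := hF.sub (fun p hp => List.mem_of_mem_filter hp)
          have hF'nc : ∀ p ∈ F', ¬ PolyLE 0 p := by
            intro p hp
            have := List.of_mem_filter hp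
            simpa using this
          clear_value F'
          clear hF hFK hF' F
          obtain ⟨R, hR1, hR2⟩ := hF'ty
          have hRlow : ∀ f < D, R f = [] := by
            intro f hf
            have := hR1 f
            rw [hU', Function.update_of_ne (by omega), hU0 f (by omega)] at this
            exact List.eq_nil_of_length_eq_zero (by omega)
          have hRD : (R D).length ≤ k + 1 := by
            have := hR1 D; rw [hU'] at this; simpa using this
          have hRhi : ∀ f, D < f → (R f).length ≤ U f := by
            intro f hf
            have := hR1 f
            rwa [hU', Function.update_of_ne (by omega)] at this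
          rcases hRDc : R D with _ | ⟨r0, R'⟩
          · -- no class of degree D+1
            refine mono' s1 _ _ (le_max_left _ _) (hs1 F' hF'K ⟨R, ?_, hR2⟩)
            intro f
            rcases lt_trichotomy f D with h | h | h
            · rw [hRlow f h]; simp
            · subst h; rw [hRDc]; simp
            · rw [hN1, Function.update_of_ne (by omega)]; exact hRhi f h
          · have hR'len : R'.length ≤ k := by
              rw [hRDc] at hRD; simpa using hRD
            by_cases hb : ∃ b ∈ F', PolyLE (D + 1) b ∧ PolyLE D (fun n => b n - r0 n)
            · obtain ⟨b, hbF, hbD, hbr⟩ := hb
              refine mono' (s2 + 1) _ _ (le_max_right _ _) (step s2 F' b hbF hF'nc ?_)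
              intro h
              refine hs2 _ ?_ ?_
              · rw [petStep, List.length_append, List.length_map, List.length_map]; omega
              · -- the type of the new family
                refine ⟨fun f => if f < D then petStep F' b h else
                  if f = D then R'.map (fun r n => r n - r0 n) else R f, ?_, ?_⟩
                · intro f
                  rcases lt_trichotomy f D with hf | hf | hf
                  · simp only [hf, if_true]
                    rw [hN2, Function.update_of_ne (by omega)]
                    simp only [hf, if_true]
                    rw [petStep, List.length_append, List.length_map, List.length_map]; omega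
                  · subst hf
                    simp only [lt_irrefl, if_false, if_true, List.length_map]
                    rw [hN2]; simpa using hR'len
                  · simp only [show ¬ f < D by omega, show ¬ f = D by omega, if_false]
                    rw [hN2, Function.update_of_ne (by omega)]
                    simp only [show ¬ f < D by omega, if_false]
                    exact hRhi f hf
                · -- every member is covered
                  have main : ∀ p ∈ F', ∀ q : ℤ → G, q ∈ petStep F' b h →
                      (∀ f, PolyLE (f + 1) p → PolyLE f (fun n => q n - (p n - b n))) →
                      PolyLE 0 q ∨ ∃ f, ∃ r ∈ (if f < D then petStep F' b h else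
                        if f = D then R'.map (fun r n => r n - r0 n) else R f),
                        PolyLE (f + 1) q ∧ PolyLE f (fun n => q n - r n) := by
                    intro p hp q hq hqp
                    rcases hR2 p hp with h0 | ⟨f, r, hr, hpf, hpr⟩
                    · exact absurd h0 (hF'nc p hp)
                    · have hqf := hqp f hpf
                      rcases lt_trichotomy f D with hf | hf | hf
                      · rw [hRlow f hf] at hr; simp at hr
                      · subst hf
                        rw [hRDc] at hr
                        rcases List.mem_cons.1 hr with hr | hr
                        · -- the class of the base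
                          subst hr
                          have hqD : PolyLE f q := by
                            have e : q = fun n => (q n - (p n - b n)) +
                                ((p n - r n) - (b n - r n)) := by
                              funext n; abel
                            rw [e]
                            exact hqf.add (hpr.sub hbr)
                          rcases f with _ | f
                          · left; exact hqD
                          · right
                            refine ⟨f, q, ?_, hqD, ?_⟩
                            · simp only [show f < f + 1 by omega, if_true]; exact hq
                            · have : (fun n => q n - q n) = fun _ : ℤ => (0 : G) := by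
                                funext n; simp
                              rw [this]; exact PolyLE.zero_fun f
                        · right
                          refine ⟨f, fun n => r n - r0 n, ?_, ?_, ?_⟩
                          · simp only [lt_irrefl, if_false, if_true, List.mem_map]
                            exact ⟨r, hr, rfl⟩
                          · have e : q = fun n => (q n - (p n - b n)) + (p n - b n) := by
                              funext n; abel
                            rw [e]
                            exact hqf.succ.add (hpf.sub hbD)
                          · have e : (fun n => q n - (r n - r0 n)) = fun n =>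
                                (q n - (p n - b n)) + ((p n - r n) - (b n - r0 n)) := by
                              funext n; abel
                            rw [e]
                            exact hqf.add (hpr.sub hbr)
                      · right
                        have hbf : PolyLE f b := hbD.mono (by omega)
                        refine ⟨f, r, ?_, ?_, ?_⟩
                        · simp only [show ¬ f < D by omega, show ¬ f = D by omega, if_false]
                          exact hr
                        · have e : q = fun n => (q n - (p n - b n)) + (p n - b n) := by
                            funext n; abel
                          rw [e]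
                          exact hqf.succ.add (hpf.sub hbf.succ)
                        · have e : (fun n => q n - r n) = fun n =>
                                (q n - (p n - b n)) + ((p n - r n) - b n) := by
                              funext n; abel
                          rw [e]
                          exact hqf.add (hpr.sub hbf)
                  intro q hq
                  have hq' := hq
                  rw [petStep, List.mem_append, List.mem_map, List.mem_map] at hq
                  rcases hq with ⟨p, hp, rfl⟩ | ⟨p, hp, rfl⟩
                  · refine main p hp _ hq' ?_
                    intro f _
                    have : (fun n => p n - b n - (p n - b n)) = fun _ : ℤ => (0 : G) := by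
                      funext n; simp
                    rw [this]; exact PolyLE.zero_fun f
                  · refine main p hp _ hq' ?_
                    intro f hpf
                    have e : (fun n => p (n + h) - b n - (p n - b n)) =
                        fun n => p (n + h) - p n := by
                      funext n; abel
                    rw [e]; exact hpf h
            · -- nobody in the class of r0
              refine mono' s1 _ _ (le_max_left _ _) (hs1 F' hF'K
                ⟨fun f => if f = D then R' else R f, ?_, ?_⟩)
              · intro f
                rcases lt_trichotomy f D with h | h | h
                · simp only [show ¬ f = D by omega, if_false]; rw [hRlow f h]; simp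
                · subst h; simp only [if_true]; rw [hN1]; simpa using hR'len
                · simp only [show ¬ f = D by omega, if_false]
                  rw [hN1, Function.update_of_ne (by omega)]; exact hRhi f h
              · intro p hp
                rcases hR2 p hp with h0 | ⟨f, r, hr, hpf, hpr⟩
                · left; exact h0
                · right
                  refine ⟨f, r, ?_, hpf, hpr⟩
                  by_cases hf : f = D
                  · subst hf
                    rw [hRDc] at hr
                    simp only [if_true]
                    rcases List.mem_cons.1 hr with hr | hr
                    · subst hr; exact absurd ⟨p, hp, hpf, hpr⟩ hb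
                    · exact hr
                  · simp only [hf, if_false]; exact hr
        · intro f hf
          rcases Nat.lt_or_ge D f with h | h
          · rw [hU', Function.update_of_ne (by omega)]; exact hN f h
          · have : f = D := by omega
            subst this; rw [hU', hk]; simp
    exact key (N D) N hN rfl K

/-- **Uniform PET principle.** -/
theorem pet_principle (P : ℕ → List (ℤ → G) → Prop)
    (mono : ∀ s F, P s F → P (s + 1) F)
    (nil : P 0 [])
    (const : ∀ s F, P s (noConst F) → P s F)
    (step : ∀ s F, ∀ b ∈ F, (∀ p ∈ F, ¬ PolyLE 0 p) → (∀ h : ℤ, P s (petStep F b h)) → P (s + 1) F)
    (D K : ℕ) : ∃ s, ∀ F : List (ℤ → G), F.length ≤ K → (∀ p ∈ F, PolyLE D p) → P s F := by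
  classical
  obtain ⟨s, hs⟩ := pet_aux P mono const step D (fun _ => 0) (fun _ _ => rfl) (by
    intro K
    refine ⟨0, fun F _ hF => ?_⟩
    refine const 0 F ?_
    have hnil : noConst F = [] := by
      rw [noConst, List.filter_eq_nil_iff]
      obtain ⟨R, h1, h2⟩ := hF
      intro p hp
      simp only [not_not, decide_not, Bool.not_eq_eq_eq_not, Bool.not_true, decide_eq_false_iff_not]
      rcases h2 p hp with h0 | ⟨f, r, hr, _⟩
      · exact h0
      · exfalso
        have h1f : (R f).length ≤ 0 := h1 f
        have : R f = [] := List.eq_nil_of_length_eq_zero (by omega)
        rw [this] at hr; simp at hr
    rw [hnil]; exact nil) (fun f => if f < D then K else 0) (by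
        intro f hf; simp [show ¬ f < D by omega]) K
  refine ⟨s, fun F hFK hF => hs F hFK ⟨fun f => if f < D then F else [], ?_, ?_⟩⟩
  · intro f
    by_cases h : f < D
    · simp [h, hFK]
    · simp [h]
  · intro p hp
    rcases D with _ | D
    · left; exact hF p hp
    · right
      refine ⟨D, p, ?_, hF p hp, ?_⟩
      · simp [hp]
      · have : (fun n => p n - p n) = fun _ : ℤ => (0 : G) := by
          funext n; simp
        rw [this]; exact PolyLE.zero_fun D

end pet

end MP_e326dc_an
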