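import Pool.Agent.Lib.MP_e326dc_an.C.Nrm
import Pool.Agent.Lib.MP_e326dc_an.C.Pet
import Pool.Agent.Lib.MP_e326dc_an.Final

/-!
# MP_e326dc_an, part C: products along polynomials and anti-uniformity
-/

set_option linter.unusedSectionVars false

namespace MP_e326dc_an

open Filter Topology MeasureTheory
open scoped ComplexConjugate ENNReal

variable {A Ω : Type} [AddCommGroup A] [MeasurableSpace Ω] {μ : Measure Ω} [IsProbabilityMeasure μ]

/-- the product `∏ f_i(T^{p_i(n)} x)` -/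
noncomputable def uprod (T : MPAction A Ω μ) (l : List ((ℤ → A) × (Ω → ℂ))) (n : ℤ) (x : Ω) : ℂ :=
  (l.map fun pf => pf.2 (T.T (pf.1 n) x)).prod

/-- all functions of the list are measurable and bounded by `1` -/
def GoodL (l : List ((ℤ → A) × (Ω → ℂ))) : Prop :=
  ∀ pf ∈ l, Measurable pf.2 ∧ ∀ x, ‖pf.2 x‖ ≤ 1

theorem uprod_nil (T : MPAction A Ω μ) (n : ℤ) (x : Ω) : uprod T [] n x = 1 := by simp [uprod]

theorem uprod_cons (T : MPAction A Ω μ) (pf : (ℤ → A) × (Ω → ℂ)) (l : List ((ℤ → A) × (Ω → ℂ)))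
    (n : ℤ) (x : Ω) : uprod T (pf :: l) n x = pf.2 (T.T (pf.1 n) x) * uprod T l n x := by
  simp [uprod]

theorem uprod_append (T : MPAction A Ω μ) (l l' : List ((ℤ → A) × (Ω → ℂ)))
    (n : ℤ) (x : Ω) : uprod T (l ++ l') n x = uprod T l n x * uprod T l' n x := by
  simp [uprod]

theorem GoodL.tail {pf : (ℤ → A) × (Ω → ℂ)} {l : List ((ℤ → A) × (Ω → ℂ))} (h : GoodL (pf :: l)) :
    GoodL l := fun q hq => h q (List.mem_cons_of_mem _ hq)

theorem uprod_measurable (T : MPAction A Ω μ) {l : List ((ℤ → A) × (Ω → ℂ))} (hl : GoodL l) (n : ℤ) :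
    Measurable (uprod T l n) := by
  induction l with
  | nil =>
    have : uprod T [] n = fun _ => 1 := by funext x; exact uprod_nil T n x
    rw [this]; exact measurable_const
  | cons pf l ih =>
    have : uprod T (pf :: l) n = fun x => pf.2 (T.T (pf.1 n) x) * uprod T l n x := by
      funext x; exact uprod_cons T pf l n x
    rw [this]
    exact ((hl pf (by simp)).1.comp (T.mp _).measurable).mul (ih hl.tail)

theorem norm_uprod_le (T : MPAction A Ω μ) {l : List ((ℤ → A) × (Ω → ℂ))} (hl : GoodL l) (n : ℤ)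
    (x : Ω) : ‖uprod T l n x‖ ≤ 1 := by
  induction l with
  | nil => rw [uprod_nil]; simp
  | cons pf l ih =>
    rw [uprod_cons, norm_mul]
    have := mul_le_mul ((hl pf (by simp)).2 (T.T (pf.1 n) x)) (ih hl.tail) (norm_nonneg _) zero_le_one
    simpa using this

theorem uprod_memLp (T : MPAction A Ω μ) {l : List ((ℤ → A) × (Ω → ℂ))} (hl : GoodL l) (n : ℤ) :
    MemLp (uprod T l n) 2 μ :=
  MemLp.of_bound (uprod_measurable T hl n).aestronglyMeasurable 1
    (Filter.Eventually.of_forall (norm_uprod_le T hl n))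

/-- the Hilbert space `L²(μ)`, as a type carrying only its complex Hilbert space structure -/
def HL (μ : Measure Ω) : Type := Lp ℂ 2 μ

noncomputable instance : NormedAddCommGroup (HL μ) := inferInstanceAs (NormedAddCommGroup (Lp ℂ 2 μ))
noncomputable instance : InnerProductSpace ℂ (HL μ) := inferInstanceAs (InnerProductSpace ℂ (Lp ℂ 2 μ))
instance : CompleteSpace (HL μ) := inferInstanceAs (CompleteSpace (Lp ℂ 2 μ))

/-- an element of `L²` as a function -/
noncomputable def HL.fn (f : HL μ) : Ω → ℂ := ((show Lp ℂ 2 μ from f) : Ω → ℂ)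

/-- the class of a square integrable function -/
noncomputable def HL.mk {f : Ω → ℂ} (h : MemLp f 2 μ) : HL μ := (h.toLp f : Lp ℂ 2 μ)

theorem HL.fn_mk {f : Ω → ℂ} (h : MemLp f 2 μ) : (HL.mk h).fn =ᵐ[μ] f := MemLp.coeFn_toLp h

theorem HL.memLp (f : HL μ) : MemLp f.fn 2 μ := Lp.memLp (show Lp ℂ 2 μ from f)

theorem HL.fn_add (f g : HL μ) : (f + g).fn =ᵐ[μ] fun x => f.fn x + g.fn x :=
  Lp.coeFn_add (show Lp ℂ 2 μ from f) g

theorem HL.fn_smul (c : ℂ) (f : HL μ) : (c • f).fn =ᵐ[μ] fun x => c * f.fn x :=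
  Lp.coeFn_smul c (show Lp ℂ 2 μ from f)

theorem HL.fn_zero : (0 : HL μ).fn =ᵐ[μ] fun _ => 0 := Lp.coeFn_zero _ _ _

open Classical in
/-- the product as an element of `L²` -/
noncomputable def uvec (T : MPAction A Ω μ) (l : List ((ℤ → A) × (Ω → ℂ))) (n : ℤ) : HL μ :=
  if h : MemLp (uprod T l n) 2 μ then HL.mk h else 0

theorem uvec_coe (T : MPAction A Ω μ) {l : List ((ℤ → A) × (Ω → ℂ))} (hl : GoodL l) (n : ℤ) :
    (uvec T l n).fn =ᵐ[μ] uprod T l n := by
  rw [uvec, dif_pos (uprod_memLp T hl n)]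
  exact HL.fn_mk _

theorem inner_eq_integral (f g : HL μ) : inner ℂ f g = ∫ x, conj (f.fn x) * g.fn x ∂μ := by
  refine (L2.inner_def (show Lp ℂ 2 μ from f) (show Lp ℂ 2 μ from g)).trans ?_
  refine integral_congr_ae (Filter.Eventually.of_forall fun x => ?_)
  simp only [RCLike.inner_apply, HL.fn]
  ring

theorem normSq_eq_integral (f : HL μ) : ‖f‖ ^ 2 = ∫ x, ‖f.fn x‖ ^ 2 ∂μ := by
  have h1 : (‖f‖ ^ 2 : ℝ) = (inner ℂ f f : ℂ).re := by
    have := @inner_self_eq_norm_sq ℂ (HL μ) _ _ _ f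
    simpa using this.symm
  rw [h1, inner_eq_integral]
  have h2 : (fun x => conj (f.fn x) * f.fn x) = fun x => ((‖f.fn x‖ ^ 2 : ℝ) : ℂ) := by
    funext x
    rw [mul_comm, Complex.mul_conj, Complex.normSq_eq_norm_sq]
  rw [h2, integral_complex_ofReal]
  simp

theorem normSq_eq_of_ae {f : HL μ} {g : Ω → ℂ} (h : f.fn =ᵐ[μ] g) :
    ‖f‖ ^ 2 = ∫ x, ‖g x‖ ^ 2 ∂μ := by
  rw [normSq_eq_integral]
  refine integral_congr_ae ?_
  filter_upwards [h] with x hx
  rw [hx]

theorem norm_uvec_le (T : MPAction A Ω μ) {l : List ((ℤ → A) × (Ω → ℂ))} (hl : GoodL l) (n : ℤ) :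
    ‖uvec T l n‖ ≤ 1 := by
  have h := normSq_eq_of_ae (uvec_coe T hl n)
  have h2 : ∫ x, ‖uprod T l n x‖ ^ 2 ∂μ ≤ 1 := by
    have : ∫ x, ‖uprod T l n x‖ ^ 2 ∂μ ≤ ∫ _x, (1 : ℝ) ∂μ := by
      refine integral_mono_of_nonneg (Filter.Eventually.of_forall fun x => by positivity)
        (integrable_const _) (Filter.Eventually.of_forall fun x => ?_)
      exact pow_le_one₀ (norm_nonneg _) (norm_uprod_le T hl n x)
    simpa using this
  rw [← h] at h2
  exact (sq_le_one_iff₀ (norm_nonneg _)).1 h2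

/-- the constant function `1` in `L²` -/
noncomputable def oneL (μ : Measure Ω) [IsProbabilityMeasure μ] : HL μ :=
  HL.mk (memLp_const (1 : ℂ))

theorem oneL_coe : (oneL μ).fn =ᵐ[μ] fun _ => 1 := HL.fn_mk _

theorem norm_oneL : ‖oneL μ‖ ≤ 1 := by
  have h := normSq_eq_of_ae (oneL_coe (μ := μ))
  simp only [norm_one, one_pow, integral_const, smul_eq_mul, mul_one, probReal_univ] at h
  exact (sq_le_one_iff₀ (norm_nonneg _)).1 h.le

/-- the list of one van der Corput step -/
noncomputable def stepL (l : List ((ℤ → A) × (Ω → ℂ))) (b : ℤ → A) (h : ℤ) :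
    List ((ℤ → A) × (Ω → ℂ)) :=
  l.map (fun pf => (fun n => pf.1 n - b n, pf.2)) ++
    l.map (fun pf => (fun n => pf.1 (n + h) - b n, fun x => conj (pf.2 x)))

theorem stepL_fst (l : List ((ℤ → A) × (Ω → ℂ))) (b : ℤ → A) (h : ℤ) :
    (stepL l b h).map Prod.fst = petStep (l.map Prod.fst) b h := by
  simp only [stepL, petStep, List.map_append, List.map_map]
  rfl

theorem GoodL.stepL {l : List ((ℤ → A) × (Ω → ℂ))} (hl : GoodL l) (b : ℤ → A) (h : ℤ) :
    GoodL (stepL l b h) := by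
  intro pf hpf
  simp only [MP_e326dc_an.stepL, List.mem_append, List.mem_map] at hpf
  rcases hpf with ⟨q, hq, rfl⟩ | ⟨q, hq, rfl⟩
  · exact hl q hq
  · refine ⟨?_, fun x => ?_⟩
    · exact Complex.continuous_conj.measurable.comp (hl q hq).1
    · simp only [RCLike.norm_conj]
      exact (hl q hq).2 x

theorem uprod_stepL (T : MPAction A Ω μ) (l : List ((ℤ → A) × (Ω → ℂ))) (b : ℤ → A) (h n : ℤ)
    (x : Ω) : uprod T (stepL l b h) n (T.T (b n) x) =
      conj (uprod T l (n + h) x) * uprod T l n x := by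
  have key : ∀ a y, T.T (a - b n) (T.T (b n) y) = T.T a y := by
    intro a y
    rw [← T.T_add, sub_add_cancel]
  rw [stepL, uprod_append]
  have e1 : uprod T (l.map (fun pf => (fun n => pf.1 n - b n, pf.2))) n (T.T (b n) x) =
      uprod T l n x := by
    simp only [uprod, List.map_map, Function.comp_def, key]
  have e2 : uprod T (l.map (fun pf => (fun n => pf.1 (n + h) - b n, fun x => conj (pf.2 x)))) n
      (T.T (b n) x) = conj (uprod T l (n + h) x) := by
    simp only [uprod, List.map_map, Function.comp_def, key, map_list_prod]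
  rw [e1, e2, mul_comm]

theorem inner_uvec (T : MPAction A Ω μ) {l : List ((ℤ → A) × (Ω → ℂ))} (hl : GoodL l)
    (b : ℤ → A) (h n : ℤ) :
    inner ℂ (uvec T l (n + h)) (uvec T l n) = inner ℂ (oneL μ) (uvec T (stepL l b h) n) := by
  rw [inner_eq_integral, inner_eq_integral]
  have e1 : ∫ x, conj ((uvec T l (n + h)).fn x) * (uvec T l n).fn x ∂μ =
      ∫ x, uprod T (stepL l b h) n (T.T (b n) x) ∂μ := by
    refine integral_congr_ae ?_
    filter_upwards [uvec_coe T hl (n + h), uvec_coe T hl n] with x h1 h2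
    rw [h1, h2, uprod_stepL]
  have e2 : ∫ x, conj ((oneL μ).fn x) * (uvec T (stepL l b h) n).fn x ∂μ =
      ∫ x, uprod T (stepL l b h) n x ∂μ := by
    refine integral_congr_ae ?_
    filter_upwards [oneL_coe (μ := μ), uvec_coe T (hl.stepL b h) n] with x h1 h2
    rw [h1, h2]; simp
  rw [e1, e2]
  have hm := (uprod_measurable T (hl.stepL b h) n).aestronglyMeasurable (μ := μ)
  have h3 := integral_map (μ := μ) (φ := T.T (b n)) (T.mp (b n)).measurable.aemeasurable
    (f := uprod T (stepL l b h) n) (by rw [(T.mp (b n)).map_eq]; exact hm)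
  rw [(T.mp (b n)).map_eq] at h3
  exact h3.symm

end MP_e326dc_an
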