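import Pool.Agent.Lib.MP_e326dc_an.Defs

/-!
# MP_e326dc_an, part C: limits of bounded real sequences along the hyperfilter, averages
-/

namespace MP_e326dc_an

open Filter Topology
open scoped ComplexConjugate

/-! ### averages -/

section avg
variable {α E : Type*} [SeminormedAddCommGroup E] [NormedSpace ℝ E]

theorem avg_add (s : Finset α) (f g : α → E) : avg s (fun i => f i + g i) = avg s f + avg s g := by
  simp only [avg, Finset.sum_add_distrib, smul_add]

theorem avg_sub (s : Finset α) (f g : α → E) : avg s (fun i => f i - g i) = avg s f - avg s g := by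
  simp only [avg, Finset.sum_sub_distrib, smul_sub]

theorem avg_const {s : Finset α} (hs : s.Nonempty) (a : E) : avg s (fun _ => a) = a := by
  have h : (s.card : ℝ) ≠ 0 := by
    have := hs.card_pos
    positivity
  rw [avg, Finset.sum_const, ← Nat.cast_smul_eq_nsmul ℝ, smul_smul, inv_mul_cancel₀ h, one_smul]

theorem norm_avg_le (s : Finset α) (f : α → E) : ‖avg s f‖ ≤ avg s (fun i => ‖f i‖) := by
  simp only [avg]
  rw [norm_smul, norm_inv, Real.norm_natCast, smul_eq_mul]
  exact mul_le_mul_of_nonneg_left (norm_sum_le _ _) (by positivity)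

theorem avg_le_avg {s : Finset α} {f g : α → ℝ} (h : ∀ i ∈ s, f i ≤ g i) : avg s f ≤ avg s g := by
  simp only [avg, smul_eq_mul]
  exact mul_le_mul_of_nonneg_left (Finset.sum_le_sum h) (by positivity)

theorem avg_nonneg {s : Finset α} {f : α → ℝ} (h : ∀ i ∈ s, 0 ≤ f i) : 0 ≤ avg s f := by
  simp only [avg, smul_eq_mul]
  exact mul_nonneg (by positivity) (Finset.sum_nonneg h)

theorem avg_le_const {s : Finset α} {f : α → ℝ} {C : ℝ} (hC : 0 ≤ C) (h : ∀ i ∈ s, f i ≤ C) :
    avg s f ≤ C := by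
  rcases s.eq_empty_or_nonempty with rfl | hs
  · simpa [avg] using hC
  · calc avg s f ≤ avg s (fun _ => C) := avg_le_avg h
      _ = C := avg_const hs C

theorem norm_avg_le_const {s : Finset α} {f : α → E} {C : ℝ} (hC : 0 ≤ C)
    (h : ∀ i ∈ s, ‖f i‖ ≤ C) : ‖avg s f‖ ≤ C :=
  (norm_avg_le s f).trans (avg_le_const hC h)

theorem card_win (M : ℤ) (L : ℕ) : (win M L).card = L := by
  simp [win]

/-- shifting the argument of a window average -/
theorem avg_win_shift (M : ℤ) (L : ℕ) (f : ℤ → E) (a : ℤ) :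
    avg (win M L) (fun n => f (n + a)) = avg (win (M + a) L) f := by
  simp only [avg, card_win]
  congr 1
  rw [win, win, show M + a + (L : ℤ) = (M + L) + a by ring, ← Finset.image_add_right_Ico,
    Finset.sum_image (fun x _ y _ h => by simpa using h)]

/-- the average over a window moves little when the window is shifted -/
theorem norm_avg_win_shift_sub_le (M : ℤ) (L : ℕ) (f : ℤ → E) {C : ℝ} (hC : ∀ n, ‖f n‖ ≤ C)
    (a : ℕ) : ‖avg (win M L) (fun n => f (n + a)) - avg (win M L) f‖ ≤ 2 * C * a / L := by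
  have hC0 : 0 ≤ C := (norm_nonneg _).trans (hC 0)
  rcases Nat.eq_zero_or_pos L with rfl | hL
  · simp [avg, win]
  -- telescoping: one step at a time
  have h1 : ∀ k : ℕ, ‖avg (win M L) (fun n => f (n + (k + 1 : ℕ))) - avg (win M L) (fun n => f (n + k))‖
      ≤ 2 * C / L := by
    intro k
    simp only [avg, card_win]
    rw [← smul_sub, norm_smul, norm_inv, Real.norm_natCast]
    have : ∑ i ∈ win M L, f (i + (k + 1 : ℕ)) - ∑ i ∈ win M L, f (i + k) =
        f (M + L + k) - f (M + k) := by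
      have key : ∀ l : ℕ, ∑ i ∈ win M l, f (i + (k + 1 : ℕ)) - ∑ i ∈ win M l, f (i + k) =
          f (M + l + k) - f (M + k) := by
        intro l
        induction l with
        | zero => simp [win]
        | succ l ih =>
          have hw : win M (l + 1) = insert (M + (l : ℤ)) (win M l) := by
            ext i; simp only [win, Finset.mem_Ico, Finset.mem_insert]; push_cast; omega
          have hn : M + (l : ℤ) ∉ win M l := by simp [win]
          rw [hw, Finset.sum_insert hn, Finset.sum_insert hn]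
          have e : f (M + (l : ℤ) + ((k + 1 : ℕ) : ℤ)) = f (M + ((l + 1 : ℕ) : ℤ) + k) := by
            congr 1; push_cast; ring
          rw [e]
          have : f (M + ((l + 1 : ℕ) : ℤ) + k) + ∑ i ∈ win M l, f (i + (k + 1 : ℕ)) -
              (f (M + (l : ℤ) + k) + ∑ i ∈ win M l, f (i + k)) =
              f (M + ((l + 1 : ℕ) : ℤ) + k) - f (M + (l : ℤ) + k) +
              (∑ i ∈ win M l, f (i + (k + 1 : ℕ)) - ∑ i ∈ win M l, f (i + k)) := by abel
          rw [this, ih]; abel
      exact key L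
    rw [this]
    calc (L : ℝ)⁻¹ * ‖f (M + L + k) - f (M + k)‖ ≤ (L : ℝ)⁻¹ * (C + C) := by
          refine mul_le_mul_of_nonneg_left ?_ (by positivity)
          exact (norm_sub_le _ _).trans (add_le_add (hC _) (hC _))
      _ = 2 * C / L := by field_simp; ring
  induction a with
  | zero => simp
  | succ a ih =>
    have e : avg (win M L) (fun n => f (n + (a + 1 : ℕ))) - avg (win M L) f =
        (avg (win M L) (fun n => f (n + (a + 1 : ℕ))) - avg (win M L) (fun n => f (n + a))) +
        (avg (win M L) (fun n => f (n + a)) - avg (win M L) f) := by abel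
    rw [e]
    refine (norm_add_le _ _).trans ((add_le_add (h1 a) ih).trans (le_of_eq ?_))
    push_cast; ring

end avg

/-! ### limits along the hyperfilter -/

/-- the limit of a bounded real sequence along the hyperfilter on `ℕ` -/
noncomputable def hlim (x : ℕ → ℝ) : ℝ := limUnder (hyperfilter ℕ : Filter ℕ) x

theorem exists_hlim {x : ℕ → ℝ} {C : ℝ} (h : ∀ j, |x j| ≤ C) :
    ∃ a, Tendsto x (hyperfilter ℕ : Filter ℕ) (𝓝 a) := by
  have hK : IsCompact (Set.Icc (-C) C) := isCompact_Icc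
  obtain ⟨a, _, ha⟩ := hK.ultrafilter_le_nhds ((hyperfilter ℕ).map x) (by
    rw [Ultrafilter.coe_map, le_principal_iff]
    exact Filter.mem_map.2 (Filter.univ_mem' fun j => abs_le.1 (h j)))
  exact ⟨a, ha⟩

theorem tendsto_hlim {x : ℕ → ℝ} {C : ℝ} (h : ∀ j, |x j| ≤ C) :
    Tendsto x (hyperfilter ℕ : Filter ℕ) (𝓝 (hlim x)) :=
  tendsto_nhds_limUnder (exists_hlim h)

theorem hlim_eq {x : ℕ → ℝ} {a : ℝ} (h : Tendsto x (hyperfilter ℕ : Filter ℕ) (𝓝 a)) :
    hlim x = a := h.limUnder_eq

theorem hlim_const (a : ℝ) : hlim (fun _ => a) = a := hlim_eq tendsto_const_nhds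

theorem hlim_mono {x y : ℕ → ℝ} {C : ℝ} (hx : ∀ j, |x j| ≤ C) (hy : ∀ j, |y j| ≤ C)
    (h : ∀ j, x j ≤ y j) : hlim x ≤ hlim y :=
  le_of_tendsto_of_tendsto' (tendsto_hlim hx) (tendsto_hlim hy) h

theorem hlim_add {x y : ℕ → ℝ} {C : ℝ} (hx : ∀ j, |x j| ≤ C) (hy : ∀ j, |y j| ≤ C) :
    hlim (fun j => x j + y j) = hlim x + hlim y :=
  hlim_eq ((tendsto_hlim hx).add (tendsto_hlim hy))

theorem hlim_nonneg {x : ℕ → ℝ} {C : ℝ} (hx : ∀ j, |x j| ≤ C) (h : ∀ j, 0 ≤ x j) : 0 ≤ hlim x :=
  ge_of_tendsto' (tendsto_hlim hx) h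

theorem hlim_le {x : ℕ → ℝ} {C D : ℝ} (hx : ∀ j, |x j| ≤ C) (h : ∀ j, x j ≤ D) : hlim x ≤ D :=
  le_of_tendsto' (tendsto_hlim hx) h

theorem hlim_pow {x : ℕ → ℝ} {C : ℝ} (hx : ∀ j, |x j| ≤ C) (k : ℕ) :
    hlim (fun j => x j ^ k) = hlim x ^ k :=
  hlim_eq ((tendsto_hlim hx).pow k)

theorem hlim_avg {α : Type*} (s : Finset α) {x : α → ℕ → ℝ} {C : ℝ} (hx : ∀ i j, |x i j| ≤ C) :
    hlim (fun j => avg s (fun i => x i j)) = avg s (fun i => hlim (x i)) := by
  refine hlim_eq ?_
  simp only [avg, smul_eq_mul]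
  exact (tendsto_finsetSum _ fun i _ => tendsto_hlim (hx i)).const_mul _

/-- Two bounded sequences whose difference tends to zero have the same limit. -/
theorem hlim_congr {x y : ℕ → ℝ} {C : ℝ} (hx : ∀ j, |x j| ≤ C)
    (h : Tendsto (fun j => x j - y j) atTop (𝓝 0)) : hlim x = hlim y := by
  have h1 : Tendsto (fun j => x j - y j) (hyperfilter ℕ : Filter ℕ) (𝓝 0) :=
    h.mono_left Nat.hyperfilter_le_atTop
  have h2 := (tendsto_hlim hx).sub h1
  simp only [sub_sub_cancel, sub_zero] at h2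
  exact (hlim_eq h2).symm

theorem hlim_le_hlim_of {x y : ℕ → ℝ} {C : ℝ} (hx : ∀ j, |x j| ≤ C) (hy : ∀ j, |y j| ≤ C)
    {e : ℕ → ℝ} (he : Tendsto e atTop (𝓝 0)) (h : ∀ j, x j ≤ y j + e j) : hlim x ≤ hlim y := by
  have h1 : Tendsto e (hyperfilter ℕ : Filter ℕ) (𝓝 0) := he.mono_left Nat.hyperfilter_le_atTop
  have h2 := (tendsto_hlim hy).add h1
  rw [add_zero] at h2
  exact le_of_tendsto_of_tendsto' (tendsto_hlim hx) h2 h

/-! ### van der Corput -/

section vdc
variable {E : Type*} [NormedAddCommGroup E] [InnerProductSpace ℂ E]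

theorem norm_avg_sq_le {α : Type*} (s : Finset α) (f : α → E) :
    ‖avg s f‖ ^ 2 ≤ avg s (fun i => ‖f i‖ ^ 2) := by
  rcases s.eq_empty_or_nonempty with rfl | hs
  · simp [avg]
  have hc : (0 : ℝ) < s.card := by exact_mod_cast hs.card_pos
  have h1 := norm_avg_le s f
  have h2 : (avg s (fun i => ‖f i‖)) ^ 2 ≤ avg s (fun i => ‖f i‖ ^ 2) := by
    simp only [avg, smul_eq_mul]
    rw [mul_pow]
    have := sq_sum_le_card_mul_sum_sq (s := s) (f := fun i => ‖f i‖)
    calc ((s.card : ℝ)⁻¹) ^ 2 * (∑ i ∈ s, ‖f i‖) ^ 2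
        ≤ ((s.card : ℝ)⁻¹) ^ 2 * (s.card * ∑ i ∈ s, ‖f i‖ ^ 2) :=
          mul_le_mul_of_nonneg_left this (by positivity)
      _ = (s.card : ℝ)⁻¹ * ∑ i ∈ s, ‖f i‖ ^ 2 := by field_simp
  exact (pow_le_pow_left₀ (norm_nonneg _) h1 2).trans h2

theorem inner_rsmul_left (r : ℝ) (x y : E) : (inner ℂ (r • x) y) = (r : ℂ) * (inner ℂ x y) := by
  rw [← Complex.coe_smul, inner_smul_left, Complex.conj_ofReal]

theorem inner_rsmul_right (r : ℝ) (x y : E) : (inner ℂ x (r • y)) = (r : ℂ) * (inner ℂ x y) := by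
  rw [← Complex.coe_smul, inner_smul_right]

theorem avg_inner_left {α : Type*} (s : Finset α) (f : α → E) (y : E) :
    (inner ℂ (avg s f) y) = avg s (fun i => (inner ℂ (f i) y)) := by
  simp only [avg]
  rw [inner_rsmul_left, sum_inner, Complex.real_smul]

theorem avg_inner_right {α : Type*} (s : Finset α) (f : α → E) (y : E) :
    (inner ℂ y (avg s f)) = avg s (fun i => (inner ℂ y (f i))) := by
  simp only [avg]
  rw [inner_rsmul_right, inner_sum, Complex.real_smul]

theorem avg_re {α : Type*} (s : Finset α) (f : α → ℂ) :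
    (avg s f).re = avg s (fun i => (f i).re) := by
  simp only [avg, Complex.real_smul, Complex.re_ofReal_mul, Complex.re_sum, smul_eq_mul]

theorem avg_product {α β F : Type*} [AddCommGroup F] [Module ℝ F] (s : Finset α) (t : Finset β)
    (f : α × β → F) : avg (s ×ˢ t) f = avg s (fun a => avg t (fun b => f (a, b))) := by
  simp only [avg, Finset.card_product, Finset.sum_product, Nat.cast_mul, mul_inv, mul_smul,
    Finset.smul_sum]

theorem avg_comm {α β F : Type*} [AddCommGroup F] [Module ℝ F] (s : Finset α) (t : Finset β)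
    (f : α → β → F) :
    avg s (fun a => avg t (fun b => f a b)) = avg t (fun b => avg s (fun a => f a b)) := by
  simp only [avg, Finset.smul_sum]
  rw [Finset.sum_comm]
  refine Finset.sum_congr rfl fun b _ => Finset.sum_congr rfl fun a _ => ?_
  rw [smul_smul, smul_smul, mul_comm]

/-- **van der Corput inequality** for limits along the hyperfilter. -/
theorem vdc_re (M : ℕ → ℤ) (L : ℕ → ℕ) (hL : Tendsto L atTop atTop) (v : ℤ → E)
    (hv : ∀ n, ‖v n‖ ≤ 1) (H : ℕ) (hH : 0 < H) :
    hlim (fun j => ‖avg (win (M j) (L j)) v‖) ^ 2 ≤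
      avg (Finset.range H ×ˢ Finset.range H) (fun ab => hlim (fun j =>
        (avg (win (M j) (L j)) (fun n => (inner ℂ (v (n + ((ab.1 : ℤ) - ab.2))) (v n)))).re)) := by
  set w : ℤ → E := fun n => avg (Finset.range H) (fun a => v (n + a)) with hw
  have hRne : (Finset.range H).Nonempty := Finset.nonempty_range_iff.2 hH.ne'
  have hin : ∀ x y : ℤ, ‖(inner ℂ (v x) (v y))‖ ≤ 1 := fun x y =>
    (norm_inner_le_norm _ _).trans (by
      have := mul_le_mul (hv x) (hv y) (norm_nonneg _) zero_le_one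
      simpa using this)
  -- bounds
  have b1 : ∀ j, |‖avg (win (M j) (L j)) v‖| ≤ 1 := fun j => by
    rw [abs_norm]; exact norm_avg_le_const zero_le_one (fun i _ => hv i)
  have b2 : ∀ (ab : ℕ × ℕ) (j : ℕ),
      |(avg (win (M j) (L j)) (fun n => (inner ℂ (v (n + ((ab.1 : ℤ) - ab.2))) (v n)))).re| ≤ 1 := by
    intro ab j
    exact (Complex.abs_re_le_norm _).trans (norm_avg_le_const zero_le_one (fun i _ => hin _ _))
  -- the error terms tend to zero
  have he : ∀ c : ℝ, Tendsto (fun j => c / (L j : ℝ)) atTop (𝓝 0) := by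
    intro c
    exact Tendsto.div_atTop tendsto_const_nhds
      (tendsto_natCast_atTop_atTop.comp hL)
  -- first step : replace v by w
  have s1 : ∀ j, ‖avg (win (M j) (L j)) v‖ ≤ ‖avg (win (M j) (L j)) w‖ + 2 * H / L j := by
    intro j
    have e : avg (win (M j) (L j)) w =
        avg (Finset.range H) (fun a => avg (win (M j) (L j)) (fun n => v (n + a))) := by
      rw [hw, avg_comm]
    have d : ‖avg (win (M j) (L j)) v - avg (win (M j) (L j)) w‖ ≤ 2 * H / L j := by
      rw [e]
      have : avg (win (M j) (L j)) v = avg (Finset.range H) (fun _ : ℕ => avg (win (M j) (L j)) v) :=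
        (avg_const hRne _).symm
      rw [this, ← avg_sub]
      refine norm_avg_le_const (by positivity) ?_
      intro a ha
      rw [norm_sub_rev]
      refine (norm_avg_win_shift_sub_le (M j) (L j) v hv a).trans ?_
      have : (a : ℝ) ≤ H := by exact_mod_cast (Finset.mem_range.1 ha).le
      gcongr
      linarith
    calc ‖avg (win (M j) (L j)) v‖ = ‖avg (win (M j) (L j)) w +
          (avg (win (M j) (L j)) v - avg (win (M j) (L j)) w)‖ := by rw [add_sub_cancel]
      _ ≤ _ := (norm_add_le _ _).trans (by gcongr)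
  -- second step : square
  have s2 : ∀ j, ‖avg (win (M j) (L j)) w‖ ^ 2 ≤
      avg (Finset.range H ×ˢ Finset.range H) (fun ab =>
        (avg (win (M j) (L j)) (fun n => (inner ℂ (v (n + ((ab.1 : ℤ) - ab.2))) (v n)))).re) + 2 * H / L j := by
    intro j
    refine (norm_avg_sq_le _ _).trans ?_
    have e1 : ∀ n, ‖w n‖ ^ 2 = avg (Finset.range H ×ˢ Finset.range H)
        (fun ab => ((inner ℂ (v (n + (ab.1 : ℤ))) (v (n + (ab.2 : ℤ))))).re) := by
      intro n
      have : ‖w n‖ ^ 2 = ((inner ℂ (w n) (w n))).re := by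
        have := @inner_self_eq_norm_sq ℂ E _ _ _ (w n)
        simpa using this.symm
      rw [this, avg_product]
      simp only [hw]
      rw [avg_inner_left, avg_re]
      refine congrArg _ ?_
      funext a
      rw [avg_inner_right, avg_re]
    simp_rw [e1]
    rw [avg_comm]
    have e3 : avg (Finset.range H ×ˢ Finset.range H) (fun ab : ℕ × ℕ => avg (win (M j) (L j))
        (fun n => ((inner ℂ (v (n + (ab.1 : ℤ))) (v (n + (ab.2 : ℤ))))).re)) ≤
        avg (Finset.range H ×ˢ Finset.range H) (fun ab : ℕ × ℕ =>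
        (avg (win (M j) (L j)) (fun n => (inner ℂ (v (n + ((ab.1 : ℤ) - ab.2))) (v n)))).re + 2 * H / L j) := by
      refine avg_le_avg ?_
      rintro ⟨a, b⟩ hab
      rw [Finset.mem_product, Finset.mem_range, Finset.mem_range] at hab
      simp only at hab ⊢
      set g : ℤ → ℂ := fun n => (inner ℂ (v (n + ((a : ℤ) - b))) (v n)) with hg
      have e4 : (fun n : ℤ => ((inner ℂ (v (n + (a : ℤ))) (v (n + (b : ℤ))))).re) =
          fun n => (g (n + (b : ℕ))).re := by
        funext n; simp only [hg]; congr 3; ring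
      rw [e4, ← avg_re]
      have d := norm_avg_win_shift_sub_le (M j) (L j) g (C := 1) (fun n => hin _ _) b
      have d2 : (avg (win (M j) (L j)) (fun n => g (n + (b : ℕ))) - avg (win (M j) (L j)) g).re ≤
          2 * 1 * b / L j := (Complex.re_le_norm _).trans d
      rw [Complex.sub_re] at d2
      have : (b : ℝ) ≤ H := by exact_mod_cast hab.2.le
      have h5 : 2 * 1 * (b : ℝ) / L j ≤ 2 * H / L j := by gcongr; linarith
      linarith
    refine e3.trans (le_of_eq ?_)
    rw [avg_add, avg_const (hRne.product hRne)]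
  -- conclusion
  have hw1 : ∀ n, ‖w n‖ ≤ 1 := fun n => norm_avg_le_const zero_le_one (fun i _ => hv _)
  have b3 : ∀ j, |‖avg (win (M j) (L j)) w‖| ≤ 1 := fun j => by
    rw [abs_norm]; exact norm_avg_le_const zero_le_one (fun i _ => hw1 i)
  have c1 : hlim (fun j => ‖avg (win (M j) (L j)) v‖) ≤ hlim (fun j => ‖avg (win (M j) (L j)) w‖) :=
    hlim_le_hlim_of b1 b3 (he (2 * H)) s1
  have c2 : hlim (fun j => ‖avg (win (M j) (L j)) w‖ ^ 2) ≤
      hlim (fun j => avg (Finset.range H ×ˢ Finset.range H) (fun ab =>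
        (avg (win (M j) (L j)) (fun n => (inner ℂ (v (n + ((ab.1 : ℤ) - ab.2))) (v n)))).re)) := by
    refine hlim_le_hlim_of (C := 1) ?_ ?_ (he (2 * H)) s2
    · intro j
      rw [abs_pow]
      exact pow_le_one₀ (abs_nonneg _) (b3 j)
    · intro j
      have := norm_avg_le_const (s := Finset.range H ×ˢ Finset.range H)
        (f := fun ab : ℕ × ℕ =>
        (avg (win (M j) (L j)) (fun n => (inner ℂ (v (n + ((ab.1 : ℤ) - ab.2))) (v n)))).re) zero_le_one
        (fun ab _ => b2 ab j)
      simpa using this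
  rw [hlim_pow b3, hlim_avg _ b2] at c2
  refine le_trans ?_ c2
  exact pow_le_pow_left₀ (hlim_nonneg b1 fun j => norm_nonneg _) c1 2

theorem vdc_norm (M : ℕ → ℤ) (L : ℕ → ℕ) (hL : Tendsto L atTop atTop) (v : ℤ → E)
    (hv : ∀ n, ‖v n‖ ≤ 1) (H : ℕ) (hH : 0 < H) :
    hlim (fun j => ‖avg (win (M j) (L j)) v‖) ^ 2 ≤
      avg (Finset.range H ×ˢ Finset.range H) (fun ab => hlim (fun j =>
        ‖avg (win (M j) (L j)) (fun n => (inner ℂ (v (n + ((ab.1 : ℤ) - ab.2))) (v n)))‖)) := by
  refine (vdc_re M L hL v hv H hH).trans (avg_le_avg ?_)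
  intro ab _
  have hin : ∀ x y : ℤ, ‖(inner ℂ (v x) (v y))‖ ≤ 1 := fun x y =>
    (norm_inner_le_norm _ _).trans (by
      have := mul_le_mul (hv x) (hv y) (norm_nonneg _) zero_le_one
      simpa using this)
  refine hlim_mono (C := 1) ?_ ?_ (fun j => Complex.re_le_norm _)
  · intro j
    exact (Complex.abs_re_le_norm _).trans (norm_avg_le_const zero_le_one (fun i _ => hin _ _))
  · intro j
    rw [abs_norm]
    exact norm_avg_le_const zero_le_one (fun i _ => hin _ _)

end vdc

end MP_e326dc_an
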