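import Pool.Agent.Lib.MP_e326dc_an.C.Box

/-!
# MP_e326dc_an, part C: the uniformity seminorms along a sequence of windows
-/

namespace MP_e326dc_an

open Filter Topology
open scoped ComplexConjugate

/-- the seminorm of order `s+1` of `c` along the windows `[M j, M j + L j)` -/
noncomputable def nrm (M : ℕ → ℤ) (L : ℕ → ℕ) : ℕ → (ℤ → ℂ) → ℝ
  | 0, c => hlim (fun j => ‖avg (win (M j) (L j)) c‖)
  | (s + 1), c => Real.sqrt (⨅ H : ℕ, avg (Finset.range (H + 1) ×ˢ Finset.range (H + 1))
      (fun ab => nrm M L s (Dl c ((ab.1 : ℤ) - ab.2))))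

section
variable {M : ℕ → ℤ} {L : ℕ → ℕ}

theorem nrm_nonneg (s : ℕ) {c : ℤ → ℂ} (hc : ∀ n, ‖c n‖ ≤ 1) : 0 ≤ nrm M L s c := by
  cases s with
  | zero =>
    rw [nrm]
    refine hlim_nonneg (C := 1) ?_ (fun j => norm_nonneg _)
    intro j
    rw [abs_norm]; exact norm_avg_le_const zero_le_one (fun i _ => hc i)
  | succ s => rw [nrm]; exact Real.sqrt_nonneg _

theorem bddBelow_nrm (s : ℕ) {c : ℤ → ℂ} (hc : ∀ n, ‖c n‖ ≤ 1) :
    BddBelow (Set.range fun H : ℕ => avg (Finset.range (H + 1) ×ˢ Finset.range (H + 1))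
      (fun ab => nrm M L s (Dl c ((ab.1 : ℤ) - ab.2)))) :=
  ⟨0, by
    rintro _ ⟨H, rfl⟩
    exact avg_nonneg fun ab _ => nrm_nonneg s (norm_Dl_le hc _)⟩

/-- the defining inequality -/
theorem nrm_succ_sq_le (s : ℕ) {c : ℤ → ℂ} (hc : ∀ n, ‖c n‖ ≤ 1) {H : ℕ} (hH : 0 < H) :
    nrm M L (s + 1) c ^ 2 ≤ avg (Finset.range H ×ˢ Finset.range H)
      (fun ab => nrm M L s (Dl c ((ab.1 : ℤ) - ab.2))) := by
  obtain ⟨H, rfl⟩ : ∃ H', H = H' + 1 := ⟨H - 1, by omega⟩
  rw [nrm, Real.sq_sqrt (Real.iInf_nonneg fun H => avg_nonneg fun ab _ =>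
    nrm_nonneg s (norm_Dl_le hc _))]
  exact ciInf_le (bddBelow_nrm s hc) H

theorem le_nrm_succ (s : ℕ) {c : ℤ → ℂ} {x : ℝ}
    (h : ∀ H : ℕ, 0 < H → x ^ 2 ≤ avg (Finset.range H ×ˢ Finset.range H)
      (fun ab => nrm M L s (Dl c ((ab.1 : ℤ) - ab.2)))) : x ≤ nrm M L (s + 1) c := by
  rw [nrm]
  refine Real.le_sqrt_of_sq_le (le_ciInf fun H => h (H + 1) (Nat.succ_pos _))

theorem norm_Dl_eq (c : ℤ → ℂ) (h n : ℤ) : Dl c h n = inner ℂ (c (n + h)) (c n) := by
  rw [Dl, RCLike.inner_apply]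

theorem nrm_le_succ (hL : Tendsto L atTop atTop) (s : ℕ) {c : ℤ → ℂ} (hc : ∀ n, ‖c n‖ ≤ 1) :
    nrm M L s c ≤ nrm M L (s + 1) c := by
  induction s generalizing c with
  | zero =>
    refine le_nrm_succ 0 fun H hH => ?_
    have := vdc_norm M L hL c hc H hH
    simp only [nrm]
    refine this.trans (le_of_eq ?_)
    refine congrArg _ ?_
    funext ab
    refine congrArg _ ?_
    funext j
    congr 2
  | succ s ih =>
    refine le_nrm_succ (s + 1) fun H hH => ?_
    refine (nrm_succ_sq_le s hc hH).trans (avg_le_avg fun ab _ => ih (norm_Dl_le hc _))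

theorem nrm_mono (hL : Tendsto L atTop atTop) {s t : ℕ} (hst : s ≤ t) {c : ℤ → ℂ}
    (hc : ∀ n, ‖c n‖ ≤ 1) : nrm M L s c ≤ nrm M L t c := by
  induction hst with
  | refl => exact le_rfl
  | step _ ih => exact ih.trans (nrm_le_succ hL _ hc)

/-- Jensen -/
theorem avg_pow_le {α : Type*} (s : Finset α) (f : α → ℝ) (hf : ∀ i ∈ s, 0 ≤ f i) (k : ℕ) :
    (avg s f) ^ (k + 1) ≤ avg s (fun i => f i ^ (k + 1)) := by
  rcases s.eq_empty_or_nonempty with rfl | hs
  · simp [avg]
  have hc : (0 : ℝ) < s.card := by exact_mod_cast hs.card_pos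
  have := Real.pow_arith_mean_le_arith_mean_pow s (fun _ => (s.card : ℝ)⁻¹) f
    (fun _ _ => by positivity) (by rw [Finset.sum_const, nsmul_eq_mul]; field_simp) hf (k + 1)
  simpa [avg, Finset.mul_sum] using this

/-- The seminorm is bounded by the averages of the cubic products. -/
theorem nrm_pow_le (hL : Tendsto L atTop atTop) (s : ℕ) {c : ℤ → ℂ} (hc : ∀ n, ‖c n‖ ≤ 1)
    {H : ℕ} (hH : 0 < H) :
    nrm M L s c ^ (2 ^ (s + 1)) ≤
      avg (Fintype.piFinset fun _ : Fin (s + 1) => Finset.range H) (fun b =>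
        avg (Fintype.piFinset fun _ : Fin (s + 1) => Finset.range H) (fun a =>
          hlim (fun j => (avg (win (M j) (L j))
            (cubp c (fun i => (a i : ℤ) - b i))).re))) := by
  induction s generalizing c with
  | zero =>
    rw [avg_pi_succ]
    have h0 : (Fintype.piFinset fun _ : Fin 0 => Finset.range H).Nonempty := by
      rw [Fintype.piFinset_nonempty]; intro i; exact i.elim0
    have e : ∀ (b0 : ℕ) (b : Fin 0 → ℕ), avg (Fintype.piFinset fun _ : Fin 1 => Finset.range H)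
        (fun a => hlim (fun j => (avg (win (M j) (L j))
            (cubp c (fun i => (a i : ℤ) - (Fin.cons b0 b : Fin 1 → ℕ) i))).re)) =
        avg (Finset.range H) (fun a0 => hlim (fun j =>
          (avg (win (M j) (L j)) (Dl c ((a0 : ℤ) - b0))).re)) := by
      intro b0 b
      rw [avg_pi_succ]
      refine congrArg _ ?_
      funext a0
      have e2 : ∀ a : Fin 0 → ℕ, (cubp c (fun i => (((Fin.cons a0 a : Fin 1 → ℕ) i : ℕ) : ℤ) -
          (Fin.cons b0 b : Fin 1 → ℕ) i)) = Dl c ((a0 : ℤ) - b0) := by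
        intro a
        funext n
        have : (fun i => (((Fin.cons a0 a : Fin 1 → ℕ) i : ℕ) : ℤ) - (Fin.cons b0 b : Fin 1 → ℕ) i) =
            (Fin.cons ((a0 : ℤ) - b0) (fun i : Fin 0 => i.elim0) : Fin 1 → ℤ) := by
          funext i
          refine Fin.cases ?_ (fun i => i.elim0) i
          simp
        rw [this, cubp_succ, cubp_zero]
      simp_rw [e2]
      rw [avg_const h0]
    simp_rw [e]
    rw [← avg_product (Finset.range H) (Fintype.piFinset fun _ : Fin 0 => Finset.range H)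
      (fun p => avg (Finset.range H) (fun a0 => hlim (fun j =>
          (avg (win (M j) (L j)) (Dl c ((a0 : ℤ) - p.1))).re)))]
    rw [avg_product]
    simp only
    simp_rw [avg_const h0]
    rw [avg_comm, ← avg_product (Finset.range H) (Finset.range H) (fun ab : ℕ × ℕ =>
      hlim (fun j => (avg (win (M j) (L j)) (Dl c ((ab.1 : ℤ) - ab.2))).re))]
    have := vdc_re M L hL c hc H hH
    simp only [nrm]
    refine this.trans (le_of_eq ?_)
    refine congrArg _ ?_
    funext ab
    refine congrArg _ ?_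
    funext j
    congr 2
  | succ s ih =>
    have p1 : nrm M L (s + 1) c ^ (2 ^ (s + 1 + 1)) = (nrm M L (s + 1) c ^ 2) ^ (2 ^ (s + 1)) := by
      rw [← pow_mul]; congr 1; ring
    rw [p1]
    have q0 : 0 ≤ nrm M L (s + 1) c ^ 2 := by positivity
    refine (pow_le_pow_left₀ q0 (nrm_succ_sq_le s hc hH) _).trans ?_
    obtain ⟨k, hk⟩ : ∃ k, 2 ^ (s + 1) = k + 1 :=
      ⟨2 ^ (s + 1) - 1, by have := Nat.one_le_two_pow (n := s + 1); omega⟩
    rw [hk]
    refine (avg_pow_le _ _ (fun ab _ => nrm_nonneg s (norm_Dl_le hc _)) k).trans ?_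
    rw [← hk]
    refine (avg_le_avg fun ab _ => ih (norm_Dl_le hc _)).trans (le_of_eq ?_)
    -- rearrange
    rw [avg_product, avg_comm, avg_pi_succ]
    refine congrArg _ ?_
    funext b0
    rw [avg_comm]
    refine congrArg _ ?_
    funext b
    rw [avg_pi_succ]
    refine congrArg _ ?_
    funext a0
    refine congrArg _ ?_
    funext a
    refine congrArg _ ?_
    funext j
    congr 2
    funext n
    rw [← cubp_succ]
    congr 1
    funext i
    refine Fin.cases ?_ (fun i => ?_) i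
    · simp
    · simp

/-- **Cube null sequences have vanishing seminorm.** -/
theorem nrm_eq_zero_of_cubeNull (hL : Tendsto L atTop atTop) (s : ℕ) {c : ℤ → ℂ}
    (hc : ∀ n, ‖c n‖ ≤ 1) (hn : CubeNull (Fin (s + 1)) c) : nrm M L s c = 0 := by
  have key : ∀ ε : ℝ, 0 < ε → nrm M L s c ^ (2 ^ (s + 1)) ≤ ε := by
    intro ε hε
    obtain ⟨N, hN⟩ := hn ε hε
    refine (nrm_pow_le hL s hc (H := N + 1) (Nat.succ_pos _)).trans ?_
    refine avg_le_const hε.le fun b _ => ?_
    have hb : ∀ (a : Fin (s + 1) → ℕ) (j : ℕ), |(avg (win (M j) (L j))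
            (cubp c (fun i => (a i : ℤ) - b i))).re| ≤ 1 := by
      intro a j
      exact (Complex.abs_re_le_norm _).trans
        (norm_avg_le_const zero_le_one fun n _ => norm_cubp_le hc _ _)
    rw [← hlim_avg _ hb]
    refine le_of_tendsto (f := fun j => avg (Fintype.piFinset fun _ : Fin (s + 1) => Finset.range (N + 1))
      (fun a => (avg (win (M j) (L j)) (cubp c (fun i => (a i : ℤ) - b i))).re))
      (x := (hyperfilter ℕ : Filter ℕ)) ?_ ?_
    · refine tendsto_hlim (C := 1) ?_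
      intro j
      have := norm_avg_le_const (s := Fintype.piFinset fun _ : Fin (s + 1) => Finset.range (N + 1))
        (f := fun a => (avg (win (M j) (L j)) (cubp c (fun i => (a i : ℤ) - b i))).re) zero_le_one
        (fun a _ => hb a j)
      simpa using this
    · have hev : ∀ᶠ j in atTop, N ≤ L j := hL.eventually_ge_atTop N
      refine Filter.Eventually.filter_mono Nat.hyperfilter_le_atTop ?_
      filter_upwards [hev] with j hj
      have h2 := hN (fun o => o.elim (M j) (fun i => -(b i : ℤ)))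
        (fun o => o.elim (L j) (fun _ => N + 1)) (by
          rintro (_ | i)
          · exact hj
          · exact Nat.le_succ N)
      rw [sub_zero, avg_box_option] at h2
      simp only [Option.elim] at h2
      rw [avg_comm] at h2
      rw [avg_box_neg] at h2
      rw [← avg_re]
      refine (Complex.re_le_norm _).trans ?_
      exact h2
  have h0 : nrm M L s c ^ (2 ^ (s + 1)) ≤ 0 := le_of_forall_pos_le_add (by simpa using key)
  have h1 : 0 ≤ nrm M L s c := nrm_nonneg s hc
  have h2 : nrm M L s c ^ (2 ^ (s + 1)) = 0 := le_antisymm h0 (by positivity)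
  exact pow_eq_zero_iff (by positivity) |>.1 h2

end

end MP_e326dc_an
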